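import Mathlib.InformationTheory.Hamming
import Mathlib.Data.Real.Basic
import Mathlib.Tactic

/-!
# Halfspaces are not uniformly bi-Lipschitz transitive (MP_ca8ef0_co)
-/

namespace Pool.Agent.Results.MP_ca8ef0_co.HalfspaceDisproof

/-- The halfspace of the cube `{-1,1}^n` (written `Fin n → ℤˣ`) given by `a₀, a₁, …, aₙ`. -/
def halfspace {n : ℕ} (a0 : ℝ) (a : Fin n → ℝ) : Set (Fin n → ℤˣ) :=
  {x | 0 ≤ a0 + ∑ i, a i * (((x i : ℤˣ) : ℤ) : ℝ)}

/-- `C`-bi-Lipschitz transitivity of a subset of the cube, for the Hamming distance. -/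
def BiLipTransitive {n : ℕ} (C : ℝ) (A : Set (Fin n → ℤˣ)) : Prop :=
  ∀ x y : A, ∃ f : A ≃ A, f x = y ∧ f y = x ∧ ∀ z w : A, z ≠ w →
    1 / C ≤ (hammingDist (f z).1 (f w).1 : ℝ) / (hammingDist z.1 w.1 : ℝ) ∧
      (hammingDist (f z).1 (f w).1 : ℝ) / (hammingDist z.1 w.1 : ℝ) ≤ C

/-- The weights: `S` light coordinates of weight `1`, all others of weight `S`. -/
def wt (S : ℕ) {n : ℕ} (i : Fin n) : ℝ := if (i : ℕ) < S then 1 else S

lemma wt_le {S : ℕ} (hS : 1 ≤ S) {n : ℕ} (i : Fin n) : wt S i ≤ S := by
  unfold wt
  split_ifs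
  · exact_mod_cast hS
  · exact le_refl _

lemma wt_nonneg {S n : ℕ} (i : Fin n) : 0 ≤ wt S i := by
  unfold wt
  split_ifs <;> positivity

/-- The counterexample halfspace. -/
noncomputable def Hs (S n : ℕ) : Set (Fin n → ℤˣ) :=
  halfspace (2 * (S : ℝ) - ∑ i : Fin n, wt S i) (fun i => wt S i)

lemma mem_Hs {S n : ℕ} (x : Fin n → ℤˣ) :
    x ∈ Hs S n ↔ ∑ i, wt S i * (1 - (((x i : ℤˣ) : ℤ) : ℝ)) ≤ 2 * S := by
  unfold Hs halfspace
  simp only [Set.mem_ofPred_eq, mul_sub, mul_one, Finset.sum_sub_distrib]
  constructor <;> intro h <;> linarith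

/-- The top vertex and the points obtained from it by changing one sign. -/
def near {n : ℕ} : Option (Fin n) → Fin n → ℤˣ
  | none => fun _ => 1
  | some i => Function.update (fun _ => 1) i (-1)

lemma near_mem {S : ℕ} (hS : 1 ≤ S) {n : ℕ} (o : Option (Fin n)) : near o ∈ Hs S n := by
  rw [mem_Hs]
  cases o with
  | none => simp [near]
  | some i =>
    rw [Finset.sum_eq_single i]
    · have := wt_le hS i
      simp only [near, Function.update_self]
      norm_num
      linarith
    · intro j _ hj
      simp [near, Function.update_of_ne hj]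
    · intro h
      exact absurd (Finset.mem_univ i) h

lemma near_injective {n : ℕ} : Function.Injective (near (n := n)) := by
  intro o o' h
  cases o with
  | none =>
    cases o' with
    | none => rfl
    | some i =>
      exfalso
      have := congrFun h i
      simp only [near, Function.update_self] at this
      exact absurd this (by decide)
  | some i =>
    cases o' with
    | none =>
      exfalso
      have := congrFun h i
      simp only [near, Function.update_self] at this
      exact absurd this (by decide)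
    | some j =>
      by_contra hne
      have hij : i ≠ j := fun h => hne (by rw [h])
      have := congrFun h i
      simp only [near, Function.update_self, Function.update_of_ne hij] at this
      exact absurd this (by decide)

lemma dist_near {n : ℕ} (o : Option (Fin n)) : hammingDist (near o) (near (n := n) none) ≤ 1 := by
  cases o with
  | none => simp
  | some i =>
    unfold hammingDist
    calc _ ≤ ({i} : Finset (Fin n)).card := by
          apply Finset.card_le_card
          intro j hj
          rw [Finset.mem_singleton]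
          by_contra hne
          rw [Finset.mem_filter] at hj
          exact hj.2 (by simp [near, Function.update_of_ne hne])
      _ = 1 := Finset.card_singleton i

/-- The second special point. -/
def low (S n : ℕ) : Fin n → ℤˣ := fun i => if (i : ℕ) < S then -1 else 1

lemma card_small {S n : ℕ} (hSn : S ≤ n) :
    (Finset.univ.filter fun i : Fin n => (i : ℕ) < S).card = S := by
  have : (Finset.univ.filter fun i : Fin n => (i : ℕ) < S) =
      Finset.univ.map (Fin.castLEEmb hSn) := by
    ext i
    simp only [Finset.mem_filter, Finset.mem_univ, true_and, Finset.mem_map, Fin.castLEEmb_apply]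
    constructor
    · intro h
      exact ⟨⟨i, h⟩, rfl⟩
    · rintro ⟨j, rfl⟩
      exact j.2
  rw [this, Finset.card_map, Finset.card_univ, Fintype.card_fin]

lemma low_mem {S n : ℕ} (hSn : S ≤ n) : low S n ∈ Hs S n := by
  rw [mem_Hs]
  have : ∀ i : Fin n, wt S i * (1 - (((low S n i : ℤˣ) : ℤ) : ℝ)) =
      if (i : ℕ) < S then (2 : ℝ) else 0 := by
    intro i
    unfold wt low
    split_ifs
    · norm_num
    · simp
  rw [Finset.sum_congr rfl fun i _ => this i, ← Finset.sum_filter, Finset.sum_const,
    card_small hSn, nsmul_eq_mul]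
  linarith

/-- A point of the halfspace at distance at most `S` from `low` has all heavy coordinates `1`. -/
lemma heavy_eq_one {S n : ℕ} (hSn : S ≤ n) {z : Fin n → ℤˣ} (hz : z ∈ Hs S n)
    (hd : hammingDist z (low S n) ≤ S) (i0 : Fin n) (hi0 : S ≤ (i0 : ℕ)) : z i0 = 1 := by
  by_contra hne
  have hz0 : z i0 = -1 := (Int.units_eq_one_or (z i0)).resolve_left hne
  rw [mem_Hs] at hz
  have hnn : ∀ i : Fin n, 0 ≤ wt S i * (1 - (((z i : ℤˣ) : ℤ) : ℝ)) := by
    intro i
    apply mul_nonneg (wt_nonneg i)
    rcases Int.units_eq_one_or (z i) with h | h <;> rw [h] <;> norm_num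
  have hi0w : wt S i0 * (1 - (((z i0 : ℤˣ) : ℤ) : ℝ)) = 2 * S := by
    rw [hz0]
    unfold wt
    rw [if_neg (by omega)]
    norm_num
    ring
  -- all light coordinates are `1`
  have hsmall : ∀ i : Fin n, (i : ℕ) < S → z i = 1 := by
    intro i hi
    by_contra hne'
    have hzi : z i = -1 := (Int.units_eq_one_or (z i)).resolve_left hne'
    have hne2 : i ≠ i0 := by
      rintro rfl
      omega
    have h2 : wt S i * (1 - (((z i : ℤˣ) : ℤ) : ℝ)) = 2 := by
      rw [hzi]
      unfold wt
      rw [if_pos hi]
      norm_num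
    have h3 := Finset.add_le_sum (fun j _ => hnn j) (Finset.mem_univ i) (Finset.mem_univ i0) hne2
    rw [h2, hi0w] at h3
    linarith
  -- so `z` differs from `low` in all light coordinates and in `i0`
  have hsub : insert i0 (Finset.univ.filter fun i : Fin n => (i : ℕ) < S) ⊆
      Finset.univ.filter fun i => z i ≠ low S n i := by
    intro i hi
    rw [Finset.mem_insert] at hi
    rw [Finset.mem_filter]
    refine ⟨Finset.mem_univ _, ?_⟩
    rcases hi with rfl | hi
    · rw [hz0]
      unfold low
      rw [if_neg (by omega)]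
      decide
    · rw [Finset.mem_filter] at hi
      rw [hsmall i hi.2]
      unfold low
      rw [if_pos hi.2]
      decide
  have hcard := Finset.card_le_card hsub
  rw [Finset.card_insert_of_notMem (by simp; omega), card_small hSn] at hcard
  have : hammingDist z (low S n) = (Finset.univ.filter fun i => z i ≠ low S n i).card := rfl
  omega

/-- No map of the required kind exists when `C < S + 1`, in dimension `2 ^ S`. -/
lemma main {S : ℕ} (hS : 1 ≤ S) {C : ℝ} (hC : C < S + 1) :
    ¬ BiLipTransitive C (Hs S (2 ^ S)) := by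
  intro h
  have hSn : S ≤ 2 ^ S := Nat.lt_two_pow_self.le
  obtain ⟨f, hf, -, hlip⟩ := h ⟨near none, near_mem hS none⟩ ⟨low S _, low_mem hSn⟩
  let p : Option (Fin (2 ^ S)) → Hs S (2 ^ S) := fun o => ⟨near o, near_mem hS o⟩
  have hp : Function.Injective p := fun o o' h => near_injective (congrArg Subtype.val h)
  have hdist : ∀ o, hammingDist (f (p o)).1 (low S (2 ^ S)) ≤ S := by
    intro o
    by_cases ho : p o = p none
    · rw [ho]
      have : (f (p none)).1 = low S (2 ^ S) := congrArg Subtype.val hf
      rw [this, hammingDist_self]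
      exact Nat.zero_le _
    · have h1 := (hlip (p o) (p none) ho).2
      have h2 : (f (p none)).1 = low S (2 ^ S) := congrArg Subtype.val hf
      rw [h2] at h1
      have h3 : hammingDist (p o).1 (p none).1 ≤ 1 := dist_near o
      have h4 : 0 < hammingDist (p o).1 (p none).1 :=
        hammingDist_pos.2 (fun h => ho (Subtype.ext h))
      have h5 : hammingDist (p o).1 (p none).1 = 1 := by omega
      rw [h5, Nat.cast_one, div_one] at h1
      have h6 : (hammingDist (f (p o)).1 (low S (2 ^ S)) : ℝ) < ((S + 1 : ℕ) : ℝ) := by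
        push_cast
        linarith
      have h7 : hammingDist (f (p o)).1 (low S (2 ^ S)) < S + 1 := by exact_mod_cast h6
      omega
  let g : Option (Fin (2 ^ S)) → Fin S → ℤˣ := fun o j => (f (p o)).1 (Fin.castLE hSn j)
  have hg : Function.Injective g := by
    intro o o' hoo
    apply hp
    apply f.injective
    apply Subtype.ext
    funext i
    rcases lt_or_ge (i : ℕ) S with hi | hi
    · have := congrFun hoo ⟨i, hi⟩
      exact this
    · rw [heavy_eq_one hSn (f (p o)).2 (hdist o) i hi,
        heavy_eq_one hSn (f (p o')).2 (hdist o') i hi]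
  have hcard := Fintype.card_le_of_injective g hg
  rw [Fintype.card_option, Fintype.card_fin, Fintype.card_fun, Fintype.card_fin] at hcard
  have h2 : Fintype.card ℤˣ = 2 := by decide
  rw [h2] at hcard
  omega

/-- **Main theorem.** No absolute constant `C` works for all halfspaces; quantitatively, for every
`S ≥ 1` the cube of dimension `n = 2 ^ S` contains a halfspace that is not `C`-bi-Lipschitz
transitive for any `C < S + 1 = log₂ n + 1`. -/
theorem result :
    (¬ ∃ C : ℝ, ∀ (n : ℕ) (a0 : ℝ) (a : Fin n → ℝ), BiLipTransitive C (halfspace a0 a)) ∧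
    ∀ S : ℕ, 1 ≤ S → ∃ (a0 : ℝ) (a : Fin (2 ^ S) → ℝ), ∀ C : ℝ, C < S + 1 →
      ¬ BiLipTransitive C (halfspace a0 a) := by
  constructor
  · rintro ⟨C, hC⟩
    obtain ⟨S, hS⟩ := exists_nat_gt C
    refine main (S := S + 1) (by omega) (C := C) (by push_cast; linarith) ?_
    exact hC _ _ _
  · intro S hS
    exact ⟨_, _, fun C hC => main hS hC⟩

end Pool.Agent.Results.MP_ca8ef0_co.HalfspaceDisproof
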